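import Mathlib
import Pool.Agent.Q36.PD.Ideal

set_option autoImplicit false

/-!
The projective dimension of the powers of square-free monomial ideals with many generators.

`betti J i a` (in `Pool.Agent.Q36.FD.Kos`, with `koszulD`, `chains`, `cycles`, `boundaries`) is the
multigraded Betti number `β_{i,a}(J) = dim_K Tor_i(J, K)_a` of an ideal `J` of `K[x_1,…,x_n]`, computed
by the Koszul complex of the variables with coefficients in `J`.
-/

namespace Pool.Agent.Results.MP_42242f_al.AllPowers

open Q36.FD MvPolynomial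

universe u

/-- The projective dimension of the ideal `J`: the largest `i` such that some multigraded Betti number
`β_{i,a}(J)` is nonzero. -/
noncomputable def pd {K : Type u} [Field K] {n : ℕ} (J : Ideal (MvPolynomial (Fin n) K)) : ℕ∞ :=
  ⨆ (i : ℕ) (_ : ∃ a, betti J i a ≠ 0), (i : ℕ∞)

/-- Let `r ≥ 1` and `q ≥ 2 ^ r + r - 1`. For every ideal `I` generated by `q` square-free monomials,
over any field and in any number of variables, `pd (I ^ r) ≤ q.choose r - 1`. -/
theorem result (r : ℕ) (hr : 1 ≤ r) (q : ℕ) (hq : 2 ^ r + r - 1 ≤ q) (K : Type u) [Field K] (n : ℕ)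
    (m : Fin q → Fin n →₀ ℕ) (hm : ∀ j v, m j v ≤ 1) :
    (∀ i : ℕ, q.choose r ≤ i → ∀ a,
      betti (Ideal.span (Set.range fun j => monomial (m j) (1 : K)) ^ r) i a = 0) ∧
    pd (Ideal.span (Set.range fun j => monomial (m j) (1 : K)) ^ r) ≤ (q.choose r - 1 : ℕ) := by
  have h : ∀ i : ℕ, q.choose r ≤ i → ∀ a,
      betti (Ideal.span (Set.range fun j => monomial (m j) (1 : K)) ^ r) i a = 0 :=
    fun i hi a => Q36.PD.betti_pow_eq_zero hr (by omega) m hm hi a
  refine ⟨h, ?_⟩
  unfold pd
  refine iSup₂_le fun i hi => ?_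
  obtain ⟨a, ha⟩ := hi
  have h1 : i < q.choose r := by
    by_contra h2
    exact ha (h i (not_lt.1 h2) a)
  exact_mod_cast Nat.le_sub_one_of_lt h1

end Pool.Agent.Results.MP_42242f_al.AllPowers
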